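import Mathlib
import Pool.Agent.L5helper59.CC.Bounds
import Pool.Agent.Y649.DG.Main
import Pool.Agent.Y649.DG.Incl

/-!
# The comparator circuit value problem: formulas with determinant gates

The input is a comparator circuit with `m` comparators on `m + 3` wires together with the initial bits
of the wires: its items are the `m` comparators (pairs of wires; the minimum of the two bits goes to
the first wire, the maximum to the second) and the `m + 3` bits. The question is the final bit of the
wire `0`.

A formula (`Fml`) is built from real constants, arbitrary real functions of one item, and arbitrary
real functions of `w` items (at most `(m + 3) ^ 2` values of each item are distinguished, that is, all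
of them), by the gates

* `pos`: is the value positive? (`1` or `0`),
* `sym`: any fan-in, any real function of the number of positive inputs,
* `det`: the determinant of a real matrix of any order whose entries are formulas (sums and products
  are determinants of order two),
* `reg`: is the matrix over an arbitrary field `K`, of any order, whose entry `(a, b)` is `c' a b` or
  `c a b`, according to whether the formula `(a, b)` is positive or not, regular? (`1` or `0`).

The size is the number of the leaves which are not constants, plus the number of wires which lead to
gates `sym`; constants and the orders of the matrices are free. The formula accepts if its value is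
positive.

1. Random formulas of size at most `s` with error probability at most `1 / 3` need
   `m ^ 3 ≤ 2.3 * 10 ^ 8 * w ^ 3 * s ^ 2`, that is, size of order `m ^ (3 / 2)`.
2. Such formulas contain, without increase in size, the nondeterministic networks (`Net`) whose edges
   are guarded by real formulas; so this is also a lower bound for nondeterministic branching
   programs.

Proof. Every comparator of the first half can ask for `m log₂ m / 6` bits which are encoded in the
others (`Pool.Agent.L5helper59.CC.Code`, by binary search with a comparison circuit), and `r` leaves
give only `2 ^ O (r ^ 2 log m)` subfunctions (`Pool.Agent.Y649.DG.bound`).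
-/

set_option autoImplicit false

namespace Pool.Agent.Results.MP_9a4607_lc.DeterminantGates

open Pool.Agent.TH697.Form (IsProb)
open Pool.Agent.TH697.Row (ApproximatesOn)
open Pool.Agent.TH457.Ary.Comp (Item value)
open Pool.Agent.Y638.RF (Net)
open Pool.Agent.Y649.DG (Fml)
open Pool.Agent.L5helper59.CC (Proper)

theorem result :
    (∀ m w : ℕ, 4096 ≤ m → 1 ≤ w →
      ∀ (Ω : Type) [Fintype Ω] (μ : Ω → ℝ), IsProb μ →
      ∀ (s : ℕ) (F : Ω → Fml (Fin m ⊕ Fin (m + 3)) (Item m (m + 3)) w ((m + 3) ^ 2)),
        (∀ ω, (F ω).size ≤ s) →
        ApproximatesOn μ (fun ω => (F ω).accepts) Proper value →
        (m : ℝ) ^ 3 ≤ 230000000 * w ^ 3 * s ^ 2) ∧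
    (∀ (ι : Type) (D : ι → Type) (w q : ℕ) (N : Net ι D w q),
      ∃ F : Fml ι D w q, F.size ≤ N.size ∧ ∀ x, F.accepts x = N.eval x) :=
  ⟨fun _ _ hm hw _ _ μ hμ s F hs hF =>
      Pool.Agent.L5helper59.CC.det_bound Pool.Agent.Y649.DG.bound hm hw μ hμ s F hs hF,
    fun _ _ _ _ N => Pool.Agent.Y649.DG.exists_of_net N⟩

end Pool.Agent.Results.MP_9a4607_lc.DeterminantGates
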