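import Pool.Agent.L5helper35.CT.Cor
import Pool.Agent.L5helper35.CN.Fischer

/-!
# Comparator circuits need a NOT gate for almost every input bit

A comparator circuit is given by its wires, each of which carries at first an input bit or a
constant, and a list of gates: comparators, and NOT gates on a wire. There are `t` NOT gates,
anywhere in the circuit.

1. If `t < L`, then the NOT gates do not help to compute the disjunction of `L` copies of a monotone
   function `f`: `f` itself has a circuit without NOT gates which is not much larger.
2. So comparator circuits of polynomial size which decide whether one of `L` systems of linear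
   equations mod 2 (three unknowns in each equation) is unsolvable have `t ≥ M ^ (1 - ε)` NOT gates,
   where `M` is the number of input bits.
3. Conversely `t = M` NOT gates, at most one on each path, suffice for everything that comparator
   circuits can do.

Proof of 1: compare two runs of the circuit. Where they differ there is a token. Comparators keep the
number of tokens, unless a rising and a falling token meet and vanish; NOT gates turn a token around.
Along a chain of inputs every NOT gate turns at most one rising token more than falling ones, so at
most `t` falling tokens vanish. For every set `U` of zeros of `f`, a random chain of zeros of the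
disjunction, built from `L` random elements of `U`, has a step where no tokens meet. So some values
of the first blocks give a circuit of comparators for the tokens of the next block (which let the
tokens pass each other instead of vanishing): it accepts all ones of `f` and rejects a fraction
`1 / L` of `U`. A greedy cover finishes the proof.
-/

namespace Pool.Agent.Results.MP_9a4607_lc.FewNegations

open Finset Pool.Agent.L5helper12.CC Pool.Agent.L5helper35.CN

/-- **Comparator circuits need a NOT gate for almost every input bit.** -/
theorem result :
    -- (1) fewer than `L` NOT gates do not help for the disjunction of `L` copies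
    (∀ (I : Type) [Fintype I] (L : ℕ) (f : (I → Bool) → Bool), Mono f →
      ∀ N : Pool.Agent.L5helper35.CN.Circuit (Fin L × I), ComputesOr f N →
      negs N.gates < L →
      ∃ N' : Pool.Agent.L5helper35.CN.Circuit I, negs N'.gates = 0 ∧
        N'.wires ≤ L * (Fintype.card I + 1) * N.wires + 1 ∧
        ∀ x, N'.value x = f x) ∧
    -- (2) systems of equations: exponentially many wires with fewer than `L` NOT gates
    (∃ C : ℝ, 0 < C ∧ ∀ (n L : ℕ) (N : Pool.Agent.L5helper35.CN.Circuit (Fin L × Eqn n)),
      ComputesOr (unsat n) N → negs N.gates < L →
      (n : ℝ) ≤ C * (1 + Real.log (N.wires * L))) ∧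
    -- at polynomial size the number of NOT gates is almost the number of input bits
    (∀ (a : ℕ) (ε : ℝ), 0 < ε → ∃ L0 : ℕ, ∀ L ≥ L0,
      ∀ N : Pool.Agent.L5helper35.CN.Circuit (Fin L × Eqn (Nat.log 2 L ^ 2)),
      ComputesOr (unsat (Nat.log 2 L ^ 2)) N →
      (N.wires : ℝ) ≤ (Fintype.card (Fin L × Eqn (Nat.log 2 L ^ 2)) : ℝ) ^ a →
      (Fintype.card (Fin L × Eqn (Nat.log 2 L ^ 2)) : ℝ) ^ (1 - ε) ≤ negs N.gates) ∧
    -- (3) as many NOT gates as input bits, at most one on each path, suffice for all circuits
    (∀ (I : Type) [Fintype I] (N : Pool.Agent.L5helper35.CN.Circuit I),
      ∃ N' : Pool.Agent.L5helper35.CN.Circuit I, N'.nest ≤ 1 ∧ negs N'.gates ≤ Fintype.card I ∧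
        N'.wires ≤ 3 * (Fintype.card I + 1) ^ 2 * (N.wires + 1) ∧ ∀ x, N'.value x = N.value x) := by
  classical
  refine ⟨?_, Pool.Agent.L5helper35.CT.few_negations, Pool.Agent.L5helper35.CT.poly_size, ?_⟩
  · intro I _ L f hf N hN ht
    obtain ⟨N', h1, h2, h3⟩ := Pool.Agent.L5helper35.CT.no_help f hf N hN ht
    exact ⟨N', by omega, h2, h3⟩
  · intro I _ N
    exact fischer N

end Pool.Agent.Results.MP_9a4607_lc.FewNegations
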