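import Pool.Agent.L5helper35.CT.Quant
import Pool.Agent.L5helper35.CT.Savitch

/-!
# Nondeterministic logarithmic space in comparator circuits: the number of NOT gates

The problem: given a directed graph with `n` vertices, is the vertex `t` reachable from `s`? It is
complete for `NL`, and monotone: a nondeterministic machine, or a nondeterministic branching program,
reads the input bits for this without negations. We also consider the disjunction of `L` copies:
given `L` graphs, is `t` reachable from `s` in at least one of them? Here there are `M = L * n ^ 2`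
input bits.

A comparator circuit is given by its wires, each of which carries at first an input bit or a
constant, and a list of gates: comparators, and NOT gates on a wire, anywhere in the circuit.

1. One graph: circuits with fewer than `n ^ (1 - δ)` NOT gates have at least
   `n ^ (δ ^ 2 / 11 * log n)` wires (`n` large). So at polynomial size `n ^ (1 - o(1))` NOT gates are
   needed.
2. `L` graphs, `n = 2 ^ (r ^ 2)`, `L = 2 ^ (r ^ 3)`: circuits with at most `M ^ a` wires have at least
   `M ^ (1 - 2 / (r + 2))` NOT gates (`r` large).
3. `L` graphs, `n ≥ 2 ^ 102`: circuits with fewer than `L` NOT gates have more than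
   `n ^ (log n / 10) / L` wires, roughly.
4. There are circuits of polynomial size with at most `M` NOT gates, at most one on each path.
5. There are circuits without NOT gates with about `L * (2 n) ^ (log n + 1)` wires.

Proof of 3. By `CT.no_help` (tokens; the same step as in `FewNegations`) it is enough to treat circuits
without NOT gates for one graph. For these we use the rank measure of Razborov, as for comparator
circuits in `L5helper12`. Rows: a path `x` from `s` to `t` through `m = 2 ^ d` layers of `Q = 8 ^ d`
vertices, one in each layer. Columns: a set `y` of vertices; its graph has all arcs except those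
which leave `y` and `s`. The entry is the sum of `(-1) ^ |V|` over the configurations `V` of a
reversible pebble game on a line with `d` pebbles, such that `x` is in `y` in all layers outside `V`.
The matrix has rank `Q ^ m`. On the rows and columns which have a fixed arc of the path leaving `y`
all terms with fewer than `d` pebbles cancel, so the rank is at most
`binom(m, d + 1) * Q ^ (m - d - 1)`; and `d` pebbles do not reach the end of the line.

Proof of 1 and 2. The `L` graphs are put side by side into one graph; and 3.

Proof of 4. A pebble on the vertex `v` of level `i` means that there is a walk of `i` steps from `s` to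
`v`. A comparator moves a pebble along an arc from level `i` to level `i + 1` if the end is free. If
this is repeated for all arcs, and `s` gets a new pebble each time, then the pebbles stop to move after
`n (n + 1) ^ 2` rounds, and all reachable vertices have pebbles on level `n`. The conditions on the
arcs are simulated by comparators and NOT gates on copies of input bits, and `CN.fischer` reduces the
number of NOT gates to `M`.
-/

namespace Pool.Agent.Results.MP_9a4607_lc.ReachabilityNegations

open Pool.Agent.L5helper35.CN Pool.Agent.L5helper35.CT

/-- **The number of NOT gates of comparator circuits for reachability.** -/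
theorem result :
    -- (1) one graph: fewer than `n ^ (1 - δ)` NOT gates need `n ^ (δ ^ 2 / 11 * log n)` wires
    (∀ δ : ℝ, 0 < δ → δ ≤ 1 → ∃ n1 : ℕ, ∀ n ≥ n1, ∀ s t : Fin n, s ≠ t →
      ∀ N : Circuit (Fin n × Fin n), (∀ E, N.value E = conn s t E) →
      (negs N.gates : ℝ) < (n : ℝ) ^ (1 - δ) →
      (n : ℝ) ^ (δ ^ 2 / 11 * Real.logb 2 n) ≤ N.wires) ∧
    -- (2) `L` graphs: at polynomial size the number of NOT gates is almost the number of input bits
    (∀ a : ℕ, ∃ r0 : ℕ, ∀ r ≥ r0, ∀ s t : Fin (2 ^ r ^ 2), s ≠ t →
      ∀ N : Circuit (Fin (2 ^ r ^ 3) × (Fin (2 ^ r ^ 2) × Fin (2 ^ r ^ 2))),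
      ComputesOr (conn s t) N →
      N.wires ≤ Fintype.card (Fin (2 ^ r ^ 3) × (Fin (2 ^ r ^ 2) × Fin (2 ^ r ^ 2))) ^ a →
      (Fintype.card (Fin (2 ^ r ^ 3) × (Fin (2 ^ r ^ 2) × Fin (2 ^ r ^ 2))) : ℝ) ^
        (1 - 2 / ((r : ℝ) + 2)) ≤ negs N.gates) ∧
    -- (3) with fewer than `L` NOT gates there are more than polynomially many wires
    (∀ (n L : ℕ), 2 ^ 102 ≤ n → ∀ s t : Fin n, s ≠ t →
      ∀ N : Circuit (Fin L × (Fin n × Fin n)), ComputesOr (conn s t) N →
      negs N.gates < L → 2 ^ (Nat.log 2 n ^ 2 / 10) < L * N.wires) ∧
    -- (4) there are circuits of polynomial size, with at most one NOT gate on each path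
    (∀ (n L : ℕ) (s t : Fin n), ∃ N : Circuit (Fin L × (Fin n × Fin n)),
      ComputesOr (conn s t) N ∧ N.nest ≤ 1 ∧ negs N.gates ≤ L * (n * n) ∧
        N.wires ≤ 3 * (L * (n * n) + 1) ^ 2 * (3 * L * (n + 1) ^ 6 + 2)) ∧
    -- (5) circuits without NOT gates
    (∀ (n L : ℕ) (s t : Fin n), ∃ N : Circuit (Fin L × (Fin n × Fin n)),
      ComputesOr (conn s t) N ∧ negs N.gates = 0 ∧
        N.wires ≤ L * (2 * n + 1) ^ (Nat.log 2 n + 1) + 1) := by
  refine ⟨one_quant, reach_poly, fun n L hn s t hst N hN hk => ?_, ?_, ?_⟩
  · by_contra hS
    push Not at hS
    exact absurd (reach_lower hn s t hst N hN hS) (by omega)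
  · intro n L s t
    obtain ⟨N, h1, h2, h3, h4⟩ := upper L s t
    rw [Fintype.card_prod, Fintype.card_prod, Fintype.card_fin, Fintype.card_fin] at h3 h4
    refine ⟨N, h1, h2, h3, h4.trans (Nat.mul_le_mul_left _ ?_)⟩
    rw [mul_left_comm, ← mul_assoc]
  · intro n L s t
    obtain ⟨N, h1, h2, h3⟩ := upper_zero L s t
    rw [Fintype.card_fin] at h3
    exact ⟨N, h1, h2, h3⟩

end Pool.Agent.Results.MP_9a4607_lc.ReachabilityNegations
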